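import Pool.Agent.helper66.LIN.Spec

set_option autoImplicit false

/-!
# Project lin (MP_60c1a7_co): module FNL
-/

namespace LSH.Lin

theorem FNL_len {V : Type} (t : LT V) : t.verts.length = t.shape.size := by
  induction t with
  | leaf v => rfl
  | un v t ih => simp only [LT.verts, LT.shape, BT.size, List.length_cons, ih]
  | br v s t ihs iht =>
    simp only [LT.verts, LT.shape, BT.size, List.length_cons, List.length_append, ihs, iht]

theorem FNL_root {V : Type} (t : LT V) : t.root ∈ t.verts := by
  cases t with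
  | leaf v => simp [LT.root, LT.verts]
  | un v t => simp [LT.root, LT.verts]
  | br v s t => simp [LT.root, LT.verts]

theorem FNL_card (d : PT) : Multiset.card d.pts = d.shape.size := by
  induction d with
  | leaf v => rfl
  | un v h t ih => simp only [PT.pts, PT.shape, BT.size, Multiset.card_cons, ih]
  | br v h s k t ihs iht =>
    simp only [PT.pts, PT.shape, BT.size, Multiset.card_cons, Multiset.card_add, ihs, iht]

theorem FNL_mono {n : ℕ} {T : SimpleGraph (Fin n)} {S P : Finset (ℝ × ℝ)} (h : S ⊆ P)
    (hE : Emb n T S) : Emb n T P := by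
  obtain ⟨f, c, h1, h2, h3⟩ := hE
  exact ⟨f, c, h1, fun i => h (h2 i), h3⟩

/-- FNL -/
theorem FNL (hINI : INI_stmt) (hWTB : WTB_stmt) (hNBD : NBD_stmt) (hRE : RE_stmt) (hEM : EM_stmt)
    (hGTF : GTF_stmt) : FNL_stmt := by
  intro hleaf n T hT hdeg P hP hG
  obtain ⟨r, hr⟩ := hleaf n T hT
  obtain ⟨t, h1, h2, h3, h4⟩ := hRE n T hT hdeg r (hr.trans one_le_two)
  have hn : t.shape.size = n := by
    rw [← FNL_len]
    have h5 : t.verts.toFinset = Finset.univ := by
      ext v
      simp [h3 v]
    have h6 := congrArg Finset.card h5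
    rw [List.toFinset_card_of_nodup h2, Finset.card_univ, Fintype.card_fin] at h6
    exact h6
  have hGP : Gen (P : Set Pt) := fun a ha b hb hab => hG a ha b hb hab
  have key : ∀ (S : Finset Pt) (d : PT), S ⊆ P → Draw t.shape S d → Emb n T P := by
    intro S d hS hd
    refine FNL_mono hS (hEM n T hT r t h1 h2 h3 h4 S ?_ ?_ d hd)
    · obtain ⟨h5, h6, _⟩ := hd
      have h7 := FNL_card d
      rw [h6, h5, hn] at h7
      exact h7
    · intro a ha b hb hab
      exact hGP a (hS ha) b (hS hb) hab
  cases t with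
  | leaf v =>
    have hn1 : n = 1 := by rw [← hn]; rfl
    have hne : P.Nonempty := by
      rw [← Finset.card_pos]
      omega
    obtain ⟨p, hp⟩ := hne
    refine key {p} (.leaf p) (Finset.singleton_subset_iff.2 hp) ⟨rfl, rfl, ?_⟩
    exact List.Pairwise.nil
  | un v t' =>
    have hn1 : t'.shape.size + 1 = n := hn
    have h5 := hWTB t'.shape
    have h6 : t'.shape.lv ≤ 1 + {v | (T.neighborSet v).ncard = 3}.ncard :=
      hNBD n T hT hdeg r (.un v t') hr h1 h2 h3 h4
    obtain ⟨S, hS, d, hd⟩ := hINI t'.shape P hGP (by omega)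
    exact key S d hS hd
  | br v s t' =>
    exfalso
    have hv : v = r := h1
    have e1 : (v, s.root) ∈ (LT.br v s t').edg := by simp [LT.edg]
    have e2 : (v, t'.root) ∈ (LT.br v s t').edg := by simp [LT.edg]
    have a1 := ((h4 _ _).1 e1).1
    have a2 := ((h4 _ _).1 e2).1
    have hne : s.root ≠ t'.root := by
      intro he
      have h5 : (v :: (s.verts ++ t'.verts)).Nodup := h2
      rw [List.nodup_cons, List.nodup_append'] at h5
      obtain ⟨_, _, _, h6⟩ := h5
      exact h6 (FNL_root s) (he ▸ FNL_root t')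
    have h6 : ({s.root, t'.root} : Set (Fin n)) ⊆ T.neighborSet r := by
      rintro w (rfl | rfl)
      · rw [← hv]; exact a1
      · rw [← hv]; exact a2
    have h7 := Set.ncard_le_ncard h6 (Set.toFinite _)
    rw [Set.ncard_pair hne] at h7
    omega

end LSH.Lin
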